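import Mathlib

set_option autoImplicit false

/-!
# The ring `K⟨a, y | a²y = a⟩` is left and right McCoy but not right Dischinger
-/

namespace Pool.Agent.Results.MP_4d240a_al.TwoSidedMcCoy

open Polynomial

/-- Right McCoy (for a ring with 1). -/
def RightMcCoy (S : Type) [Ring S] : Prop :=
  ∀ f g : S[X], f ≠ 0 → g ≠ 0 → f * g = 0 → ∃ s : S, s ≠ 0 ∧ f * C s = 0

/-- Left McCoy (for a ring with 1). -/
def LeftMcCoy (S : Type) [Ring S] : Prop :=
  ∀ f g : S[X], f ≠ 0 → g ≠ 0 → f * g = 0 → ∃ s : S, s ≠ 0 ∧ C s * g = 0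

/-- Right Dischinger: every right strongly regular element is left strongly regular. -/
def RightDischinger (S : Type) [Ring S] : Prop :=
  ∀ a : S, (∃ y : S, a = a ^ 2 * y) → ∃ z : S, a = z * a ^ 2

/-- Normal words of the monoid `⟨a, y | a a y = a⟩`: `u a^k` with `u` a word in `y` (`false`)
and `z = a y` (`true`). -/
@[ext] structure W where
  u : List Bool
  k : ℕ

namespace W

/-- left multiplication of `u a^k` by `a` -/
def aL : List Bool → ℕ → W
  | [], k => ⟨[], k + 1⟩
  | false :: u, k => ⟨true :: u, k⟩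
  | true :: u, k => aL u k

def act (x : W) : W := aL x.u x.k

def cons (u : List Bool) (x : W) : W := ⟨u ++ x.u, x.k⟩

def mul (x y : W) : W := cons x.u (act^[x.k] y)

lemma act_cons_mul (u : List Bool) (k : ℕ) (y : W) :
    act (mul ⟨u, k⟩ y) = mul (act ⟨u, k⟩) y := by
  induction u with
  | nil =>
    show act (cons [] (act^[k] y)) = cons [] (act^[k+1] y)
    simp [cons, Function.iterate_succ_apply']
  | cons b u ih =>
    cases b with
    | false => rfl
    | true => exact ih

lemma act_mul (x y : W) : act (mul x y) = mul (act x) y := act_cons_mul x.u x.k y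

lemma act_iter_mul (n : ℕ) (x y : W) : act^[n] (mul x y) = mul (act^[n] x) y := by
  induction n with
  | zero => rfl
  | succ n ih => rw [Function.iterate_succ_apply', ih, act_mul, ← Function.iterate_succ_apply' act]

lemma act_iter_nil (n k : ℕ) : act^[n] ⟨[], k⟩ = ⟨[], n + k⟩ := by
  induction n with
  | zero => simp
  | succ n ih => rw [Function.iterate_succ_apply', ih]; simp [act, aL]; omega

instance : Monoid W where
  mul := mul
  one := ⟨[], 0⟩
  one_mul x := by
    show cons [] (act^[0] x) = x
    simp [cons]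
  mul_one x := by
    show cons x.u (act^[x.k] ⟨[], 0⟩) = x
    rw [act_iter_nil]; simp [cons]
  mul_assoc x y z := by
    show mul (cons x.u (act^[x.k] y)) z = cons x.u (act^[x.k] (mul y z))
    rw [act_iter_mul]
    show cons (x.u ++ _) _ = cons x.u (cons _ _)
    simp [cons, List.append_assoc]

lemma mul_def (x y : W) : x * y = ⟨x.u ++ (act^[x.k] y).u, (act^[x.k] y).k⟩ := rfl

lemma one_def : (1 : W) = ⟨[], 0⟩ := rfl

def a : W := ⟨[], 1⟩
def y : W := ⟨[false], 0⟩
def z : W := ⟨[true], 0⟩

lemma a_mul (x : W) : a * x = act x := by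
  rw [mul_def]; simp [a]

lemma z_mul (x : W) : z * x = ⟨true :: x.u, x.k⟩ := by
  rw [mul_def]; simp [z]

lemma y_mul (x : W) : y * x = ⟨false :: x.u, x.k⟩ := by
  rw [mul_def]; simp [y]

lemma a_mul_y : a * y = z := rfl
lemma a_mul_z : a * z = a := rfl

lemma a_pow (n : ℕ) : a ^ n = ⟨[], n⟩ := by
  induction n with
  | zero => rfl
  | succ n ih => rw [pow_succ', ih, a_mul]; rfl

lemma a_pow_mul (n : ℕ) (x : W) : a ^ n * x = act^[n] x := by
  rw [a_pow, mul_def]; simp

/-! ### the order -/

/-- the value used for the leading-term argument -/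
def val (x : W) : ℕ ×ₗ List Bool := toLex (x.k, x.u.reverse)

lemma aL_cases (u : List Bool) (k : ℕ) : aL u k = ⟨[], k + 1⟩ ∨
    ∃ v φ : List Bool, u = v ++ false :: φ ∧ aL u k = ⟨true :: φ, k⟩ := by
  induction u with
  | nil => left; rfl
  | cons b u ih =>
    cases b with
    | false => right; exact ⟨[], u, rfl, rfl⟩
    | true =>
      rcases ih with h | ⟨v, φ, h1, h2⟩
      · left; exact h
      · right; exact ⟨true :: v, φ, by rw [h1]; rfl, h2⟩

lemma lt_append (s : List Bool) (t : List Bool) (ht : t ≠ []) : s < s ++ t := by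
  have h : List.Lex (· < ·) (s ++ []) (s ++ t) := by
    apply List.Lex.append_left
    cases t with
    | nil => exact absurd rfl ht
    | cons b t => exact List.Lex.nil
  simpa using h

lemma val_lt_act (x : W) : val x < val (act x) := by
  rcases aL_cases x.u x.k with h | ⟨v, φ, h1, h2⟩
  · unfold act; rw [h, val, val, Prod.Lex.toLex_lt_toLex]; left; simp
  · unfold act; rw [h2, val, val, Prod.Lex.toLex_lt_toLex]; right
    refine ⟨rfl, ?_⟩
    rw [h1]
    simp only [List.reverse_append, List.reverse_cons, List.append_assoc]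
    exact List.Lex.append_left _ (List.Lex.rel (by decide)) _

lemma val_le_act_iter (n : ℕ) (x : W) : val x ≤ val (act^[n] x) := by
  induction n with
  | zero => exact le_refl _
  | succ n ih => rw [Function.iterate_succ_apply']; exact ih.trans (val_lt_act _).le

lemma val_lt_act_iter (n : ℕ) (hn : n ≠ 0) (x : W) : val x < val (act^[n] x) := by
  obtain ⟨n, rfl⟩ := Nat.exists_eq_succ_of_ne_zero hn
  rw [Function.iterate_succ_apply']
  exact (val_le_act_iter n x).trans_lt (val_lt_act _)

lemma val_lt_cons (v : List Bool) (hv : v ≠ []) (x : W) : val x < val (cons v x) := by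
  rw [val, val, Prod.Lex.toLex_lt_toLex]; right
  refine ⟨rfl, ?_⟩
  simp only [cons, List.reverse_append]
  exact lt_append _ _ (by simpa using hv)

lemma val_lt_mul (m x : W) (hm : m ≠ 1) : val x < val (m * x) := by
  show val x < val (cons m.u (act^[m.k] x))
  by_cases hu : m.u = []
  · have hk : m.k ≠ 0 := by
      intro hk; apply hm
      ext1
      · exact hu
      · exact hk
    rw [hu]
    have : cons [] (act^[m.k] x) = act^[m.k] x := by simp [cons]
    rw [this]; exact val_lt_act_iter _ hk _
  · exact (val_le_act_iter _ _).trans_lt (val_lt_cons _ hu _)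

lemma val_le_mul (m x : W) : val x ≤ val (m * x) := by
  by_cases hm : m = 1
  · rw [hm, one_mul]
  · exact (val_lt_mul m x hm).le

lemma val_inj {x x' : W} (h : val x = val x') : x = x' := by
  have := toLex_inj.1 h
  simp only [Prod.mk.injEq, List.reverse_inj] at this
  ext1
  · exact this.2
  · exact this.1

/-! ### right multiplications -/

lemma mul_a (m : W) : m * a = ⟨m.u, m.k + 1⟩ := by
  rw [mul_def, a, act_iter_nil]; simp

lemma mul_y_zero (u : List Bool) : (⟨u, 0⟩ : W) * y = ⟨u ++ [false], 0⟩ := rfl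

lemma mul_y_one (u : List Bool) : (⟨u, 1⟩ : W) * y = ⟨u ++ [true], 0⟩ := rfl

lemma mul_y_succ (u : List Bool) (k : ℕ) : (⟨u, k + 2⟩ : W) * y = ⟨u, k + 1⟩ := by
  rw [mul_def]
  have h : act^[k+2] y = ⟨[], k + 1⟩ := by
    rw [Function.iterate_add_apply]
    have : act^[2] y = ⟨[], 1⟩ := rfl
    rw [this, act_iter_nil]
  simp [h]

lemma mul_y_ne_one (m : W) : m * y ≠ 1 := by
  obtain ⟨u, k⟩ := m
  rcases k with _ | _ | k
  · rw [mul_y_zero, one_def]; simp
  · rw [mul_y_one, one_def]; simp
  · rw [mul_y_succ, one_def]; simp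

lemma exists_mul_y (m : W) (hm : m ≠ 1) : ∃ m', m' * y = m := by
  obtain ⟨u, k⟩ := m
  rcases k with _ | k
  · rcases List.eq_nil_or_concat u with rfl | ⟨v, b, rfl⟩
    · exact absurd rfl hm
    · cases b with
      | false => exact ⟨⟨v, 0⟩, by rw [mul_y_zero]; simp⟩
      | true => exact ⟨⟨v, 1⟩, by rw [mul_y_one]; simp⟩
  · exact ⟨⟨u, k + 2⟩, mul_y_succ u k⟩

lemma mul_y_inj {m m' : W} (h : m * y = m' * y) : m = m' := by
  obtain ⟨u, k⟩ := m
  obtain ⟨u', k'⟩ := m'
  rcases k with _ | _ | k <;> rcases k' with _ | _ | k' <;>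
    simp only [zero_add, mul_y_zero, mul_y_one, mul_y_succ, W.mk.injEq] at h ⊢ <;> simp_all

lemma mul_a_inj {m m' : W} (h : m * a = m' * a) : m = m' := by
  rw [mul_a, mul_a] at h
  simp only [W.mk.injEq, add_left_inj] at h
  ext1
  · exact h.1
  · exact h.2

end W

open W MonoidAlgebra

section ring

set_option linter.unusedSectionVars false

variable {Λ : Type} [CommRing Λ] [IsDomain Λ]

/-- Leading-term lemma: an element with nonzero coefficient at `1` is left regular. -/
lemma left_regular {f g : MonoidAlgebra Λ W} (hf : f.coeff 1 ≠ 0) (h : f * g = 0) : g = 0 := by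
  classical
  by_contra hg
  have hne : g.coeff.support.Nonempty := by
    rw [Finsupp.support_nonempty_iff]; simpa using hg
  obtain ⟨x0, hx0, hmin⟩ := Finset.exists_min_image g.coeff.support val hne
  have hu : UniqueMul f.coeff.support g.coeff.support 1 x0 := by
    intro m x hm hx he
    rw [one_mul] at he
    have h1 : val x0 ≤ val x := hmin x hx
    by_cases hm1 : m = 1
    · subst hm1; rw [one_mul] at he; exact ⟨rfl, he⟩
    · exfalso
      have h2 := val_lt_mul m x hm1
      rw [he] at h2
      exact absurd h2 (not_lt.2 h1)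
  have h3 := coeff_mul_mul_of_uniqueMul hu
  rw [h] at h3
  simp only [MonoidAlgebra.coeff_zero, Finsupp.coe_zero, Pi.zero_apply] at h3
  exact mul_ne_zero hf (Finsupp.mem_support_iff.1 hx0) h3.symm

lemma y_mul_eq_zero {g : MonoidAlgebra Λ W} (h : (single y 1 : MonoidAlgebra Λ W) * g = 0) : g = 0 := by
  ext m
  have h1 : ((single y 1 : MonoidAlgebra Λ W) * g).coeff (y * m) = 1 * g.coeff m := by
    apply coeff_single_mul_eq_mul_coeff
    intro m' _
    rw [y_mul, y_mul]
    constructor
    · intro h; simp only [W.mk.injEq, List.cons.injEq, true_and] at h; ext1; exacts [h.1, h.2]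
    · rintro rfl; rfl
  rw [h] at h1; simpa using h1.symm

lemma z_mul_eq_zero {g : MonoidAlgebra Λ W} (h : (single z 1 : MonoidAlgebra Λ W) * g = 0) : g = 0 := by
  ext m
  have h1 : ((single z 1 : MonoidAlgebra Λ W) * g).coeff (z * m) = 1 * g.coeff m := by
    apply coeff_single_mul_eq_mul_coeff
    intro m' _
    rw [z_mul, z_mul]
    constructor
    · intro h; simp only [W.mk.injEq, List.cons.injEq, true_and] at h; ext1; exacts [h.1, h.2]
    · rintro rfl; rfl
  rw [h] at h1; simpa using h1.symm

/-- right division by `y` -/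
lemma exists_eq_mul_y (f : MonoidAlgebra Λ W) (hf : f.coeff 1 = 0) :
    ∃ f' : MonoidAlgebra Λ W, f = f' * single y 1 ∧ ∀ m, f'.coeff m = f.coeff (m * y) := by
  classical
  refine ⟨ofCoeff (f.coeff.comapDomain (· * y) (fun _ _ _ _ h => mul_y_inj h)), ?_, fun m => rfl⟩
  ext m
  by_cases hm : m = 1
  · subst hm
    rw [hf, coeff_mul_single_of_forall_mul_ne]
    intro d; exact mul_y_ne_one d
  · obtain ⟨m', rfl⟩ := exists_mul_y m hm
    rw [coeff_mul_single_eq_coeff_mul m']
    · rw [mul_one]; rfl
    · intro m'' _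
      exact ⟨fun h => mul_y_inj h, fun h => by rw [h]⟩

/-- right division by `a` -/
lemma exists_eq_mul_a (f : MonoidAlgebra Λ W) (hf : ∀ u, f.coeff ⟨u, 0⟩ = 0) :
    ∃ f' : MonoidAlgebra Λ W, f = f' * single a 1 ∧ ∀ m, f'.coeff m = f.coeff (m * a) := by
  classical
  refine ⟨ofCoeff (f.coeff.comapDomain (· * a) (fun _ _ _ _ h => mul_a_inj h)), ?_, fun m => rfl⟩
  ext m
  obtain ⟨u, k⟩ := m
  rcases k with _ | k
  · rw [hf, coeff_mul_single_of_forall_mul_ne]
    intro d; rw [mul_a]; simp
  · rw [coeff_mul_single_eq_coeff_mul ⟨u, k⟩]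
    · rw [mul_one]
      show _ = f.coeff (⟨u, k⟩ * a)
      rw [mul_a]
    · intro m'' _
      constructor
      · intro h; rw [mul_a] at h; simp only [W.mk.injEq, add_left_inj] at h
        ext1; exacts [h.1, h.2]
      · rintro rfl; rw [mul_a]

/-- A left zero divisor of `MonoidAlgebra Λ W` lies in `MonoidAlgebra Λ W a`. -/
lemma left_zero_divisor (N : ℕ) : ∀ f g : MonoidAlgebra Λ W, (∀ u, f.coeff ⟨u, 0⟩ ≠ 0 → u.length < N) →
    (∃ u, f.coeff ⟨u, 0⟩ ≠ 0) → f * g = 0 → g = 0 := by
  induction N with
  | zero =>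
    intro f g hN ⟨u, hu⟩ _
    exact absurd (hN u hu) (by omega)
  | succ N ih =>
    intro f g hN hex hfg
    by_cases h1 : f.coeff 1 = 0
    · obtain ⟨f', hf', hc⟩ := exists_eq_mul_y f h1
      by_cases hA : ∃ u, f'.coeff ⟨u, 0⟩ ≠ 0
      · have h2 : (single y 1 : MonoidAlgebra Λ W) * g = 0 := by
          apply ih f' _ _ hA
          · rw [← mul_assoc, ← hf', hfg]
          · intro u hu
            rw [hc, mul_y_zero] at hu
            have := hN _ hu
            simp at this; omega
        exact y_mul_eq_zero h2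
      · push Not at hA
        obtain ⟨f'', hf'', hc'⟩ := exists_eq_mul_a f' hA
        have h2 : (single z 1 : MonoidAlgebra Λ W) * g = 0 := by
          apply ih f''
          · intro u hu
            rw [hc', mul_a, hc, mul_y_one] at hu
            have := hN _ hu
            simp at this; omega
          · obtain ⟨u, hu⟩ := hex
            rcases List.eq_nil_or_concat u with rfl | ⟨v, b, rfl⟩
            · exact absurd h1 hu
            · cases b with
              | false =>
                exfalso
                have := hA v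
                rw [hc, mul_y_zero] at this
                exact hu (by simpa using this)
              | true =>
                refine ⟨v, ?_⟩
                rw [hc', mul_a, hc, mul_y_one]
                simpa using hu
          · have hz : (single z 1 : MonoidAlgebra Λ W) = single a 1 * single y 1 := by
              rw [single_mul_single, a_mul_y, mul_one]
            rw [hz, ← mul_assoc, ← mul_assoc, ← hf'', ← hf', hfg]
        exact z_mul_eq_zero h2
    · exact left_regular h1 hfg

/-! ### right zero divisors -/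

/-- strip the leading `z`s -/
def strip : List Bool → List Bool
  | [] => []
  | false :: u => false :: u
  | true :: u => strip u

lemma strip_length (u : List Bool) : (strip u).length ≤ u.length := by
  induction u with
  | nil => exact le_refl _
  | cons b u ih =>
    cases b with
    | false => exact le_refl _
    | true => exact ih.trans (by simp)

lemma strip_strip (u : List Bool) : strip (strip u) = strip u := by
  induction u with
  | nil => rfl
  | cons b u ih =>
    cases b with
    | false => rfl
    | true => exact ih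

def st (m : W) : W := ⟨strip m.u, m.k⟩

/-- `δ = z - 1 = a y - 1` -/
noncomputable def δ : MonoidAlgebra Λ W := single z 1 - 1

lemma a_mul_δ : (single a 1 : MonoidAlgebra Λ W) * δ = 0 := by
  rw [δ, mul_sub, mul_one, single_mul_single, a_mul_z, mul_one, sub_self]

noncomputable def Hb : List Bool → ℕ → MonoidAlgebra Λ W
  | [], _ => 0
  | false :: _, _ => 0
  | true :: u, k => single ⟨u, k⟩ 1 + Hb u k

lemma single_eq (u : List Bool) (k : ℕ) :
    (single ⟨u, k⟩ 1 : MonoidAlgebra Λ W) = single ⟨strip u, k⟩ 1 + δ * Hb u k := by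
  induction u with
  | nil => simp [strip, Hb]
  | cons b u ih =>
    cases b with
    | false => simp [strip, Hb]
    | true =>
      have h1 : (single ⟨true :: u, k⟩ 1 : MonoidAlgebra Λ W) = single z 1 * single ⟨u, k⟩ 1 := by
        rw [single_mul_single, z_mul, mul_one]
      have h2 : (single z 1 : MonoidAlgebra Λ W) = δ + 1 := by rw [δ]; abel
      rw [h1, h2, add_mul, one_mul, Hb, mul_add]
      nth_rewrite 2 [ih]
      rw [strip]; abel

lemma Hb_supp (u : List Bool) (k : ℕ) (m : W) (h : (Hb u k : MonoidAlgebra Λ W).coeff m ≠ 0) :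
    m.u.length < u.length := by
  classical
  induction u with
  | nil => simp [Hb] at h
  | cons b u ih =>
    cases b with
    | false => simp [Hb] at h
    | true =>
      rw [Hb, MonoidAlgebra.coeff_add, Finsupp.add_apply] at h
      by_cases h1 : (Hb u k : MonoidAlgebra Λ W).coeff m = 0
      · rw [h1, add_zero, MonoidAlgebra.coeff_single, Finsupp.single_apply] at h
        split_ifs at h with h2
        · rw [← h2]; simp
        · exact absurd rfl h
      · have := ih h1; simp; omega

noncomputable def Hl : (W →₀ Λ) →ₗ[Λ] MonoidAlgebra Λ W := Finsupp.linearCombination Λ (fun m : W => Hb m.u m.k)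

noncomputable def Pl : (W →₀ Λ) →ₗ[Λ] MonoidAlgebra Λ W :=
  Finsupp.linearCombination Λ (fun m : W => (single (st m) 1 : MonoidAlgebra Λ W))

lemma decomp (f : MonoidAlgebra Λ W) : f = Pl f.coeff + δ * Hl f.coeff := by
  refine MonoidAlgebra.induction_linear f ?_ ?_ ?_
  · simp
  · intro f g hf hg
    rw [MonoidAlgebra.coeff_add, map_add, map_add, mul_add]
    nth_rewrite 1 [hf, hg]
    abel
  · intro m c
    rw [MonoidAlgebra.coeff_single, Pl, Hl, Finsupp.linearCombination_single,
      Finsupp.linearCombination_single, mul_smul_comm, ← smul_add]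
    have := single_eq (Λ := Λ) m.u m.k
    show _ = c • ((single ⟨strip m.u, m.k⟩ 1 : MonoidAlgebra Λ W) + δ * Hb m.u m.k)
    rw [← this, smul_single, smul_eq_mul, mul_one]

lemma lc_supp (v : W → MonoidAlgebra Λ W) (f : W →₀ Λ) (m : W)
    (h : (Finsupp.linearCombination Λ v f).coeff m ≠ 0) :
    ∃ m', f m' ≠ 0 ∧ (v m').coeff m ≠ 0 := by
  rw [Finsupp.linearCombination_apply, Finsupp.sum, MonoidAlgebra.coeff_sum,
    Finsupp.finsetSum_apply] at h
  obtain ⟨m', hm', h'⟩ := Finset.exists_ne_zero_of_sum_ne_zero h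
  refine ⟨m', Finsupp.mem_support_iff.1 hm', ?_⟩
  intro h0
  apply h'
  rw [MonoidAlgebra.coeff_smul_apply, h0, smul_zero]

lemma strip_cons_true_ne (u : List Bool) : strip (true :: u) ≠ true :: u := by
  intro h
  have := congrArg List.length h
  have h2 := strip_length u
  rw [strip] at this
  simp at this; omega

lemma a_mul_inj {m m' : W} (h : strip m.u = m.u) (h' : strip m'.u = m'.u)
    (he : a * m = a * m') : m = m' := by
  obtain ⟨u, k⟩ := m
  obtain ⟨u', k'⟩ := m'
  rw [a_mul, a_mul] at he
  simp only [act] at he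
  rcases u with _ | ⟨_ | _, u⟩ <;> rcases u' with _ | ⟨_ | _, u'⟩ <;>
    simp only [aL, W.mk.injEq] at he ⊢ <;>
    first
      | exact absurd h (strip_cons_true_ne _)
      | exact absurd h' (strip_cons_true_ne _)
      | simp_all

lemma ker_a (f : MonoidAlgebra Λ W) (h : (single a 1 : MonoidAlgebra Λ W) * f = 0) : f = δ * Hl f.coeff := by
  classical
  have h1 := decomp f
  have h2 : (single a 1 : MonoidAlgebra Λ W) * Pl f.coeff = 0 := by
    have h3 : (single a 1 : MonoidAlgebra Λ W) * f = single a 1 * Pl f.coeff + (single a 1 * δ) * Hl f.coeff := by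
      nth_rewrite 1 [h1]; rw [mul_add, mul_assoc]
    rw [h, a_mul_δ, zero_mul, add_zero] at h3
    exact h3.symm
  have hs : ∀ m, (Pl f.coeff).coeff m ≠ 0 → strip m.u = m.u := by
    intro m hm
    obtain ⟨m', _, h4⟩ := lc_supp _ _ _ hm
    rw [MonoidAlgebra.coeff_single, Finsupp.single_apply] at h4
    split_ifs at h4 with h5
    · rw [← h5]; exact strip_strip _
    · exact absurd rfl h4
  have h3 : Pl f.coeff = 0 := by
    ext m
    by_contra hm
    have hm' : (Pl f.coeff).coeff m ≠ 0 := hm
    have h4 : ((single a 1 : MonoidAlgebra Λ W) * Pl f.coeff).coeff (a * m) = 1 * (Pl f.coeff).coeff m := by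
      apply coeff_single_mul_eq_mul_coeff
      intro m' hm2
      constructor
      · intro he
        exact a_mul_inj (hs m' (Finsupp.mem_support_iff.1 hm2)) (hs m hm') he
      · rintro rfl; rfl
    rw [h2, one_mul] at h4
    exact hm' h4.symm
  nth_rewrite 1 [h1]
  rw [h3, zero_add]

lemma Hl_supp (f : MonoidAlgebra Λ W) (N : ℕ) (hf : ∀ m, f.coeff m ≠ 0 → m.u.length < N + 1) (m : W)
    (h : (Hl f.coeff).coeff m ≠ 0) : m.u.length < N := by
  obtain ⟨m', h1, h2⟩ := lc_supp _ _ _ h
  have h3 := Hb_supp _ _ _ h2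
  have h4 := hf m' h1
  omega

lemma mul_supp (m0 : W) (f : MonoidAlgebra Λ W) (m : W) (h : ((single m0 1 : MonoidAlgebra Λ W) * f).coeff m ≠ 0) :
    ∃ m', f.coeff m' ≠ 0 ∧ m0 * m' = m := by
  classical
  by_contra hcon
  push Not at hcon
  apply h
  rw [MonoidAlgebra.coeff_mul, MonoidAlgebra.coeff_single, Finsupp.sum_single_index]
  · apply Finset.sum_eq_zero
    intro m' hm'
    exact if_neg (hcon m' (Finsupp.mem_support_iff.1 hm'))
  · simp

lemma act_length (x : W) : (act x).u.length ≤ x.u.length := by
  obtain ⟨u, k⟩ := x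
  show (aL u k).u.length ≤ u.length
  induction u with
  | nil => simp [aL]
  | cons b u ih =>
    cases b with
    | false => simp [aL]
    | true => rw [aL]; exact ih.trans (by simp)

lemma act_iter_length (n : ℕ) (x : W) : (act^[n] x).u.length ≤ x.u.length := by
  induction n with
  | zero => exact le_refl _
  | succ n ih => rw [Function.iterate_succ_apply']; exact (act_length _).trans ih

lemma act_count (x : W) : (act x).u = [] ∨ (act x).u.count false < x.u.count false := by
  obtain ⟨u, k⟩ := x
  show (aL u k).u = [] ∨ (aL u k).u.count false < u.count false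
  rcases aL_cases u k with h | ⟨v, φ, h1, h2⟩
  · left; rw [h]
  · right; rw [h2, h1]; simp only [List.count_append, List.count_cons]; simp; omega

lemma exists_iter_nil (n : ℕ) : ∀ x : W, x.u.count false < n → ∀ N, n ≤ N → (act^[N] x).u = [] := by
  induction n with
  | zero => intro x hx; omega
  | succ n ih =>
    intro x hx N hN
    obtain ⟨N, rfl⟩ : ∃ M, N = M + 1 := ⟨N - 1, by omega⟩
    rw [Function.iterate_succ_apply]
    rcases act_count x with h | h
    · obtain ⟨k, hk⟩ : ∃ k, act x = ⟨[], k⟩ := ⟨(act x).k, by ext1; exacts [h, rfl]⟩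
      rw [hk, act_iter_nil]
    · exact ih (act x) (by omega) N (by omega)

lemma exists_pow_mem (f : MonoidAlgebra Λ W) : ∃ n, ∀ m, ((single (a ^ n) 1 : MonoidAlgebra Λ W) * f).coeff m ≠ 0 → m.u = [] := by
  refine ⟨(f.coeff.support.sup fun m => m.u.count false) + 1, ?_⟩
  intro m hm
  obtain ⟨m', h1, h2⟩ := mul_supp _ _ _ hm
  rw [a_pow_mul] at h2
  rw [← h2]
  apply exists_iter_nil _ m' _ _ (le_refl _)
  have := Finset.le_sup (f := fun m : W => m.u.count false) (Finsupp.mem_support_iff.2 h1)
  exact Nat.lt_succ_of_le this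

lemma nil_mul (i j : ℕ) : (⟨[], i⟩ : W) * ⟨[], j⟩ = ⟨[], i + j⟩ := by
  rw [W.mul_def, act_iter_nil]; simp

lemma T_domain (p q : MonoidAlgebra Λ W) (hp : ∀ m, p.coeff m ≠ 0 → m.u = []) (hq : ∀ m, q.coeff m ≠ 0 → m.u = [])
    (h : p * q = 0) (hq0 : q ≠ 0) : p = 0 := by
  classical
  by_contra hp0
  have hne : p.coeff.support.Nonempty := by
    rw [Finsupp.support_nonempty_iff]; simpa using hp0
  have hne' : q.coeff.support.Nonempty := by
    rw [Finsupp.support_nonempty_iff]; simpa using hq0
  obtain ⟨m, hm, hmin⟩ := Finset.exists_min_image p.coeff.support (fun m => m.k) hne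
  obtain ⟨m', hm', hmin'⟩ := Finset.exists_min_image q.coeff.support (fun m => m.k) hne'
  have hu : UniqueMul p.coeff.support q.coeff.support m m' := by
    intro x x' hx hx' he
    have e1 := hp x (Finsupp.mem_support_iff.1 hx)
    have e2 := hq x' (Finsupp.mem_support_iff.1 hx')
    have e3 := hp m (Finsupp.mem_support_iff.1 hm)
    have e4 := hq m' (Finsupp.mem_support_iff.1 hm')
    have e5 := hmin x hx
    have e6 := hmin' x' hx'
    obtain ⟨xu, xk⟩ := x
    obtain ⟨xu', xk'⟩ := x'
    obtain ⟨mu, mk⟩ := m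
    obtain ⟨mu', mk'⟩ := m'
    simp only at e1 e2 e3 e4 e5 e6
    subst e1 e2 e3 e4
    rw [nil_mul, nil_mul] at he
    simp only [W.mk.injEq, true_and] at he ⊢
    omega
  have h3 := coeff_mul_mul_of_uniqueMul hu
  rw [h] at h3
  simp only [MonoidAlgebra.coeff_zero, Finsupp.coe_zero, Pi.zero_apply] at h3
  exact mul_ne_zero (Finsupp.mem_support_iff.1 hm) (Finsupp.mem_support_iff.1 hm') h3.symm

lemma T_comm (p : MonoidAlgebra Λ W) (hp : ∀ m, p.coeff m ≠ 0 → m.u = []) (n : ℕ) :
    Commute (single (a ^ n) 1 : MonoidAlgebra Λ W) p := by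
  rw [← sum_coeff_single p, Finsupp.sum]
  apply Commute.sum_right
  intro m hm
  have h := hp m (Finsupp.mem_support_iff.1 hm)
  apply single_commute_single _ (Commute.one_left _)
  obtain ⟨u, k⟩ := m
  simp only at h
  subst h
  rw [a_pow]
  show _ = _
  rw [nil_mul, nil_mul, add_comm]

lemma δ_mul_eq_zero {g : MonoidAlgebra Λ W} (h : (δ : MonoidAlgebra Λ W) * g = 0) : g = 0 := by
  classical
  refine left_regular ?_ h
  have : (δ : MonoidAlgebra Λ W).coeff 1 = -1 := by
    rw [δ, MonoidAlgebra.coeff_sub, Finsupp.sub_apply, MonoidAlgebra.coeff_single, coeff_one_one,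
      Finsupp.single_apply, if_neg]
    · simp
    · rw [W.one_def, z]; simp
  rw [this]; exact neg_ne_zero.2 one_ne_zero

/-- If no power of `a` kills `g` from the left then `g` is not a right zero divisor. -/
lemma right_zero_divisor (g : MonoidAlgebra Λ W) (hg : ∀ n, (single (a ^ n) 1 : MonoidAlgebra Λ W) * g ≠ 0) (N : ℕ) :
    ∀ f : MonoidAlgebra Λ W, (∀ m, f.coeff m ≠ 0 → m.u.length < N) → f * g = 0 → f = 0 := by
  classical
  induction N with
  | zero =>
    intro f hf _
    ext m
    by_contra hm
    exact absurd (hf m hm) (by omega)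
  | succ N ih =>
    intro f hf hfg
    by_contra hf0
    obtain ⟨n1, hn1⟩ := exists_pow_mem f
    obtain ⟨n2, hn2⟩ := exists_pow_mem g
    have hp : (single (a ^ n1) 1 : MonoidAlgebra Λ W) * f = 0 := by
      apply T_domain _ _ hn1 hn2 _ (hg n2)
      have hc := T_comm _ hn1 n2
      rw [← mul_assoc, ← hc.eq, mul_assoc, mul_assoc, hfg, mul_zero, mul_zero]
    have hex : ∃ n, (single (a ^ n) 1 : MonoidAlgebra Λ W) * f = 0 := ⟨n1, hp⟩
    have hfind := Nat.find_spec hex
    have hmin := fun k => Nat.find_min hex (m := k)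
    rcases hk : Nat.find hex with _ | n
    · rw [hk, pow_zero, ← MonoidAlgebra.one_def, one_mul] at hfind
      exact hf0 hfind
    · rw [hk] at hfind
      have h1 : (single (a ^ n) 1 : MonoidAlgebra Λ W) * f ≠ 0 := hmin n (by omega)
      set f' := (single (a ^ n) 1 : MonoidAlgebra Λ W) * f with hf'
      have h2 : (single a 1 : MonoidAlgebra Λ W) * f' = 0 := by
        rw [hf', ← mul_assoc, single_mul_single, mul_one, ← pow_succ', hfind]
      have h3 := ker_a f' h2
      have h4 : ∀ m, f'.coeff m ≠ 0 → m.u.length < N + 1 := by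
        intro m hm
        obtain ⟨m', h5, h6⟩ := mul_supp _ _ _ hm
        rw [a_pow_mul] at h6
        have h7 := act_iter_length n m'
        rw [h6] at h7
        exact lt_of_le_of_lt h7 (hf m' h5)
      have h5 : Hl f'.coeff * g = 0 := by
        apply δ_mul_eq_zero
        rw [← mul_assoc, ← h3, hf', mul_assoc, hfg, mul_zero]
      have h6 : Hl f'.coeff = 0 := ih _ (Hl_supp f' N h4) h5
      rw [h6, mul_zero] at h3
      exact h1 h3

end ring

/-! ### transfer to polynomials -/

section transfer

set_option linter.unusedSectionVars false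

variable (K : Type) [CommRing K] [IsDomain K]

/-- the coefficient map `K[W][X] → K[X][W]` -/
noncomputable def θ : (MonoidAlgebra K W)[X] →+* MonoidAlgebra K[X] W :=
  Polynomial.eval₂RingHom' (MonoidAlgebra.mapRingHom W (C : K →+* K[X])) (single 1 X) (by
    intro f
    refine (single_commute (fun m' => Commute.one_left m') (fun r => ?_) _).symm
    exact Commute.all _ _)

lemma coeff_θ (f : (MonoidAlgebra K W)[X]) (m : W) (i : ℕ) :
    ((θ K f).coeff m).coeff i = (f.coeff i).coeff m := by
  induction f using Polynomial.induction_on' with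
  | add p q hp hq =>
    rw [map_add, MonoidAlgebra.coeff_add, Finsupp.add_apply, Polynomial.coeff_add, hp, hq,
      Polynomial.coeff_add, MonoidAlgebra.coeff_add, Finsupp.add_apply]
  | monomial n r =>
    have h1 : θ K (monomial n r) = MonoidAlgebra.mapRingHom W (C : K →+* K[X]) r * single 1 (X ^ n) := by
      show Polynomial.eval₂ _ _ _ = _
      rw [Polynomial.eval₂_monomial, single_pow, one_pow]
    rw [h1, MonoidAlgebra.coeff_mul_single_one, Polynomial.coeff_monomial]
    simp only [MonoidAlgebra.coeff_mapRingHom]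
    rw [Polynomial.coeff_mul_X_pow']
    split_ifs with h2 h3 h3
    · subst h3; simp
    · rw [Polynomial.coeff_C_of_ne_zero (by omega)]; simp
    · omega
    · simp

lemma θ_ne_zero {f : (MonoidAlgebra K W)[X]} (hf : f ≠ 0) : θ K f ≠ 0 := by
  intro h
  apply hf
  ext i m
  rw [← coeff_θ, h]; simp

theorem rightMcCoy : RightMcCoy (MonoidAlgebra K W) := by
  classical
  intro f g hf hg hfg
  refine ⟨δ, ?_, ?_⟩
  · intro h
    have h1 := δ_mul_eq_zero (Λ := K) (g := 1) (by rw [h, zero_mul])
    exact one_ne_zero h1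
  · have h0 : ∀ u, (θ K f).coeff ⟨u, 0⟩ = 0 := by
      by_contra hcon
      push Not at hcon
      obtain ⟨u, hu⟩ := hcon
      have h1 : θ K g = 0 := by
        apply left_zero_divisor (((θ K f).coeff.support.sup fun m => m.u.length) + 1)
          (θ K f) (θ K g) _ ⟨u, hu⟩
        · rw [← map_mul, hfg, map_zero]
        · intro v hv
          have := Finset.le_sup (f := fun m : W => m.u.length) (Finsupp.mem_support_iff.2 hv)
          exact Nat.lt_succ_of_le this
      exact θ_ne_zero K hg h1
    ext i m
    rw [Polynomial.coeff_mul_C, Polynomial.coeff_zero]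
    have h1 : ∀ u, (f.coeff i).coeff ⟨u, 0⟩ = 0 := by
      intro u
      rw [← coeff_θ, h0]; simp
    obtain ⟨f', h2, _⟩ := exists_eq_mul_a (f.coeff i) h1
    rw [h2, mul_assoc, a_mul_δ, mul_zero]

theorem leftMcCoy : LeftMcCoy (MonoidAlgebra K W) := by
  classical
  intro f g hf hg hfg
  have h1 : ∃ n, (single (a ^ n) 1 : MonoidAlgebra K[X] W) * θ K g = 0 := by
    by_contra hcon
    push Not at hcon
    apply θ_ne_zero K hf
    apply right_zero_divisor (θ K g) hcon (((θ K f).coeff.support.sup fun m => m.u.length) + 1)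
    · intro m hm
      have := Finset.le_sup (f := fun m : W => m.u.length) (Finsupp.mem_support_iff.2 hm)
      exact Nat.lt_succ_of_le this
    · rw [← map_mul, hfg, map_zero]
  obtain ⟨n, hn⟩ := h1
  refine ⟨single (a ^ n) 1, ?_, ?_⟩
  · rw [MonoidAlgebra.single_ne_zero]; exact one_ne_zero
  · have h2 : θ K (C (single (a ^ n) 1) * g) = 0 := by
      rw [map_mul, ← hn]
      congr 1
      show Polynomial.eval₂ _ _ _ = _
      rw [Polynomial.eval₂_C]; simp
    by_contra h3
    exact θ_ne_zero K h3 h2

theorem not_rightDischinger : ¬ RightDischinger (MonoidAlgebra K W) := by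
  classical
  intro h
  obtain ⟨r, hr⟩ := h (single a 1) ⟨single y 1, by
    rw [single_pow, single_mul_single, show a ^ 2 * y = a from rfl]; simp⟩
  have h1 := congrArg (fun x : MonoidAlgebra K W => x.coeff a) hr
  simp only [single_pow, MonoidAlgebra.coeff_single, Finsupp.single_eq_same] at h1
  rw [coeff_mul_single_of_forall_mul_ne] at h1
  · exact one_ne_zero h1
  · intro d he
    rw [pow_two, ← mul_assoc, mul_a, mul_a, a] at he
    simp at he

end transfer

/-- For every commutative domain `K` (e.g. any field), the unital `K`-algebra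
`K⟨a, y | a²y = a⟩` is both right McCoy and left McCoy, but it is not right Dischinger. -/
theorem result (K : Type) [CommRing K] [IsDomain K] :
    ∃ (S : Type) (_ : Ring S) (_ : Algebra K S),
      RightMcCoy S ∧ LeftMcCoy S ∧ ¬ RightDischinger S :=
  ⟨MonoidAlgebra K W, inferInstance, inferInstance, rightMcCoy K, leftMcCoy K,
    not_rightDischinger K⟩

end Pool.Agent.Results.MP_4d240a_al.TwoSidedMcCoy
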